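import Pool.Agent.Lib_helper65.RB.Mean

/-!
# An algebraic function comparable to `t^(-1/2)` cannot oscillate
-/

noncomputable section

namespace Pool.Agent.Lib_helper14.RB

open Polynomial

theorem evalEval_sum (G : ℝ[X][X]) (x y : ℝ) :
    evalEval x y G = ∑ j ∈ Finset.range (G.natDegree + 1), (G.coeff j).eval x * y ^ j := by
  unfold evalEval
  rw [eval_eq_sum_range (p := G), eval_finsetSum]
  apply Finset.sum_congr rfl
  intro j _
  simp

/-- `x^d G(x^2, v/x)` -/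
def Pv (G : ℝ[X][X]) (v : ℝ) : ℝ[X] :=
  ∑ j ∈ Finset.range (G.natDegree + 1), (G.coeff j).comp (X ^ 2) * C (v ^ j) *
    X ^ (G.natDegree - j)

theorem eval_Pv (G : ℝ[X][X]) (v x : ℝ) (hx : x ≠ 0) :
    (Pv G v).eval x = x ^ G.natDegree * evalEval (x ^ 2) (v / x) G := by
  rw [evalEval_sum, Pv, eval_finsetSum, Finset.mul_sum]
  apply Finset.sum_congr rfl
  intro j hj
  have hj' : j ≤ G.natDegree := by
    have := Finset.mem_range.mp hj
    omega
  simp only [eval_mul, eval_comp, eval_pow, eval_X, eval_C]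
  rw [div_pow]
  have h1 : x ^ G.natDegree = x ^ (G.natDegree - j) * x ^ j := by
    rw [← pow_add, Nat.sub_add_cancel hj']
  rw [h1]
  field_simp

theorem zero_of_small_roots {P : ℝ[X]} (h : ∀ δ > 0, ∃ x, 0 < x ∧ x < δ ∧ P.eval x = 0) :
    P = 0 := by
  by_contra hP
  have h1 : ({x : ℝ | P.IsRoot x} \ {0}).Finite := by
    apply Set.Finite.subset (P.rootSet_finite ℝ)
    rintro x ⟨hx, _⟩
    rw [mem_rootSet]
    exact ⟨hP, by simpa using hx⟩
  have h2 : ({x : ℝ | P.IsRoot x} \ {0})ᶜ ∈ nhds (0 : ℝ) :=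
    h1.isClosed.isOpen_compl.mem_nhds (by simp)
  obtain ⟨δ, hδ, h3⟩ := Metric.mem_nhds_iff.mp h2
  obtain ⟨x, hx0, hxδ, hx⟩ := h δ hδ
  have h4 : x ∈ Metric.ball (0 : ℝ) δ := by
    rw [Metric.mem_ball, dist_zero_right, Real.norm_eq_abs, abs_of_pos hx0]
    exact hxδ
  exact h3 h4 ⟨hx, by simpa using hx0.ne'⟩

theorem no_rel_oscillation (G : ℝ[X][X]) (hG : G ≠ 0) (l : ℝ → ℝ)
    (hl : ContinuousOn l (Set.Ioo 0 1)) (hlpos : ∀ t, 0 < t → t < 1 → 0 < l t)
    (M1 M2 : ℝ) (hM2 : 0 < M2) (hM : M2 < M1)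
    (h1 : ∀ ε > 0, ∃ t, 0 < t ∧ t < ε ∧ t < 1 ∧ M1 ≤ l t * √t)
    (h2 : ∀ ε > 0, ∃ t, 0 < t ∧ t < ε ∧ t < 1 ∧ l t * √t ≤ M2)
    (hz : ∀ t, 0 < t → t < 1 → evalEval t (l t) G = 0) : False := by
  have hP : ∀ v, M2 < v → v < M1 → Pv G v = 0 := by
    intro v hv2 hv1
    apply zero_of_small_roots
    intro δ hδ
    obtain ⟨t1, a1, b1, c1, d1⟩ := h1 (δ ^ 2) (by positivity)
    obtain ⟨t2, a2, b2, c2, d2⟩ := h2 (δ ^ 2) (by positivity)
    have hsub : Set.uIcc t1 t2 ⊆ Set.Ioo 0 1 := by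
      intro t ht
      rw [Set.mem_uIcc] at ht
      rcases ht with ht | ht
      · exact ⟨by linarith, by linarith⟩
      · exact ⟨by linarith, by linarith⟩
    have hc : ContinuousOn (fun t => l t * √t) (Set.uIcc t1 t2) :=
      (hl.mono hsub).mul (Real.continuous_sqrt.continuousOn)
    have hv : v ∈ Set.uIcc (l t1 * √t1) (l t2 * √t2) := by
      rw [Set.mem_uIcc]
      right
      exact ⟨by linarith, by linarith⟩
    obtain ⟨t, ht, htv⟩ := intermediate_value_uIcc hc hv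
    have ht01 := hsub ht
    have htδ : t < δ ^ 2 := by
      rw [Set.mem_uIcc] at ht
      rcases ht with ht | ht
      · linarith
      · linarith
    have hs : 0 < √t := Real.sqrt_pos.mpr ht01.1
    refine ⟨√t, hs, ?_, ?_⟩
    · rw [← Real.sqrt_sq hδ.le]
      exact Real.sqrt_lt_sqrt ht01.1.le htδ
    · rw [eval_Pv _ _ _ hs.ne', Real.sq_sqrt ht01.1.le]
      have h5 : v / √t = l t := by
        rw [← htv]
        exact mul_div_cancel_right₀ _ hs.ne'
      rw [h5, hz t ht01.1 ht01.2, mul_zero]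
  have hG0 : ∀ x : ℝ, 0 < x → G.map (evalRingHom (x ^ 2)) = 0 := by
    intro x hx
    apply Polynomial.eq_zero_of_infinite_isRoot
    have h3 : ((fun v => v / x) '' Set.Ioo M2 M1).Infinite := by
      apply (Set.Ioo_infinite hM).image
      intro a _ b _ hab
      have := (div_left_inj' hx.ne').mp hab
      exact this
    apply h3.mono
    rintro _ ⟨v, hv, rfl⟩
    have h4 := eval_Pv G v x hx.ne'
    rw [hP v hv.1 hv.2, eval_zero] at h4
    have h5 := (mul_eq_zero.mp h4.symm).resolve_left (pow_ne_zero _ hx.ne')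
    change (G.map (evalRingHom (x ^ 2))).eval (v / x) = 0
    rw [map_evalRingHom_eval]
    exact h5
  apply hG
  ext1 j
  rw [coeff_zero]
  apply Polynomial.eq_zero_of_infinite_isRoot
  have h3 : (Set.Ioi (0 : ℝ)).Infinite := Set.Ioi_infinite 0
  apply h3.mono
  intro u hu
  have h4 := congrArg (fun p => coeff p j) (hG0 (√u) (Real.sqrt_pos.mpr hu))
  simp only [coeff_map, coeff_zero, Real.sq_sqrt (le_of_lt hu), coe_evalRingHom] at h4
  exact h4

end Pool.Agent.Lib_helper14.RB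

end
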