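import Pool.Agent.Lib_helper14.RB.NR

/-!
# No algebraic relation for the pair (1, 3)
-/

noncomputable section

namespace Pool.Agent.Lib_helper14.RB

open Polynomial

/-- evaluation -/
def ev (u v y : ℝ) : ℝ[X][X][X] →+* ℝ := eval₂RingHom (evalEvalRingHom u v) y

@[simp] theorem ev_C (u v y : ℝ) (g : ℝ[X][X]) : ev u v y (C g) = evalEval u v g := by
  simp [ev]

@[simp] theorem ev_X (u v y : ℝ) : ev u v y X = y := by
  simp [ev]

theorem ev_sum (u v y : ℝ) (F : ℝ[X][X][X]) {n : ℕ} (hn : F.natDegree < n) :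
    ev u v y F = ∑ i ∈ Finset.range n, evalEval u v (F.coeff i) * y ^ i := by
  conv_lhs => rw [F.as_sum_range' n hn]
  rw [map_sum]
  apply Finset.sum_congr rfl
  intro i _
  rw [← C_mul_X_pow_eq_monomial, map_mul, map_pow, ev_C, ev_X]

/-- a bivariate polynomial vanishing on the positive quadrant is zero -/
theorem biv_zero' {P : ℝ[X][X]} (h : ∀ a b : ℝ, 0 < a → 0 < b → evalEval a b P = 0) : P = 0 := by
  apply Polynomial.eq_zero_of_infinite_isRoot
  have h2 : (C '' (Set.Ioi (0 : ℝ)) : Set ℝ[X]).Infinite :=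
    (Set.Ioi_infinite 0).image (C_injective.injOn)
  apply h2.mono
  rintro _ ⟨b, hb, rfl⟩
  change P.eval (C b) = 0
  apply Polynomial.eq_zero_of_infinite_isRoot
  apply (Set.Ioi_infinite (0 : ℝ)).mono
  intro a ha
  exact h a b ha hb

/-- `u^K g(v, 1 + v/u)` -/
def tw (K : ℕ) (g : ℝ[X][X]) : ℝ[X][X] :=
  ∑ j ∈ Finset.range (K + 1), (g.coeff j).map C * (C X + X) ^ j * (C X) ^ (K - j)

theorem evalEval_tw {K : ℕ} {g : ℝ[X][X]} (hK : g.natDegree ≤ K) {u : ℝ} (hu : u ≠ 0) (v : ℝ) :
    evalEval u v (tw K g) = u ^ K * evalEval v (1 + v / u) g := by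
  have h1 : evalEval v (1 + v / u) g =
      ∑ j ∈ Finset.range (K + 1), (g.coeff j).eval v * (1 + v / u) ^ j := by
    conv_lhs => rw [g.as_sum_range' (K + 1) (by omega)]
    rw [evalEval_finsetSum]
    apply Finset.sum_congr rfl
    intro j _
    rw [← C_mul_X_pow_eq_monomial, evalEval_mul, evalEval_pow, evalEval_C, evalEval_X]
  rw [h1, tw, evalEval_finsetSum, Finset.mul_sum]
  apply Finset.sum_congr rfl
  intro j hj
  have hj' : j ≤ K := by
    have := Finset.mem_range.mp hj
    omega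
  rw [evalEval_mul, evalEval_mul, evalEval_pow, evalEval_pow, evalEval_add, evalEval_C,
    evalEval_X, evalEval_map_C, eval_X]
  have h2 : u ^ K = u ^ (K - j) * u ^ j := by rw [← pow_add, Nat.sub_add_cancel hj']
  have h3 : u + v = u * (1 + v / u) := by field_simp
  rw [h2, h3, mul_pow]
  ring

section

variable {Y : ℝ → ℝ → ℝ}

/-- relations -/
def Rel (Y : ℝ → ℝ → ℝ) (F : ℝ[X][X][X]) : Prop :=
  ∀ u v, 0 < u → 0 < v → ev u v (Y u v) F = 0

theorem no_rel (hYpos : ∀ u v, 0 < u → 0 < v → 0 < Y u v)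
    (hY : ∀ u v, 0 < u → 0 < v → Y u v * Y v (1 + v / u) = v)
    (h : ∃ F, F ≠ 0 ∧ Rel Y F) : False := by
  classical
  have hex : ∃ n, ∃ F : ℝ[X][X][X], F ≠ 0 ∧ Rel Y F ∧ F.natDegree = n := by
    obtain ⟨F, h1, h2⟩ := h
    exact ⟨_, F, h1, h2, rfl⟩
  obtain ⟨F, hF, hFR, hFD⟩ := Nat.find_spec hex
  have hmin : ∀ H : ℝ[X][X][X], Rel Y H → H.natDegree < F.natDegree → H = 0 := by
    intro H hH hlt
    by_contra hH0
    rw [hFD] at hlt
    exact Nat.find_min hex hlt ⟨H, hH0, hH, rfl⟩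
  clear hFD
  set D := F.natDegree with hD
  have hD1 : 1 ≤ D := by
    by_contra h0
    have hD0 : F.natDegree = 0 := by omega
    obtain ⟨g, hg⟩ := natDegree_eq_zero.mp hD0
    apply hF
    rw [← hg]
    have : g = 0 := by
      apply biv_zero'
      intro a b ha hb
      have := hFR a b ha hb
      rwa [← hg, ev_C] at this
    rw [this, C_0]
  have hg0 : F.coeff 0 ≠ 0 := by
    intro h0
    obtain ⟨F', hF'⟩ := X_dvd_iff.mpr h0
    have hF'0 : F' ≠ 0 := by
      rintro rfl
      exact hF (by rw [hF', mul_zero])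
    have hdeg : F'.natDegree < D := by
      rw [hD, hF', natDegree_X_mul hF'0]
      omega
    apply hF'0
    apply hmin _ _ hdeg
    intro u v hu hv
    have h1 := hFR u v hu hv
    rw [hF', map_mul, ev_X] at h1
    exact (mul_eq_zero.mp h1).resolve_left (hYpos u v hu hv).ne'
  -- a common denominator
  obtain ⟨K, hK⟩ : ∃ K, ∀ i ∈ Finset.range (D + 1), (F.coeff i).natDegree ≤ K :=
    ⟨(Finset.range (D + 1)).sup (fun i => (F.coeff i).natDegree),
      fun i hi => Finset.le_sup (f := fun i => (F.coeff i).natDegree) hi⟩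
  set G : ℝ[X][X][X] := ∑ i ∈ Finset.range (D + 1), C (tw K (F.coeff i) * X ^ i) * X ^ (D - i)
    with hG
  have hGR : Rel Y G := by
    intro u v hu hv
    have hy := hYpos u v hu hv
    have hT : 0 < 1 + v / u := by positivity
    have h1 := hFR v (1 + v / u) hv hT
    rw [ev_sum v (1 + v / u) _ F (n := D + 1) (by omega)] at h1
    have hY' : Y v (1 + v / u) = v / Y u v := by
      rw [eq_div_iff hy.ne', mul_comm]
      exact hY u v hu hv
    rw [hY'] at h1
    rw [hG, map_sum]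
    have h2 : ∑ i ∈ Finset.range (D + 1), ev u v (Y u v) (C (tw K (F.coeff i) * X ^ i) * X ^ (D - i))
        = u ^ K * Y u v ^ D * ∑ i ∈ Finset.range (D + 1), evalEval v (1 + v / u) (F.coeff i) *
          (v / Y u v) ^ i := by
      rw [Finset.mul_sum]
      apply Finset.sum_congr rfl
      intro i hi
      have hi' : i ≤ D := by
        have := Finset.mem_range.mp hi
        omega
      rw [map_mul, map_pow, ev_C, ev_X, evalEval_mul, evalEval_tw (hK i hi) hu.ne', evalEval_pow,
        evalEval_X, div_pow]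
      have h3 : Y u v ^ D = Y u v ^ (D - i) * Y u v ^ i := by
        rw [← pow_add, Nat.sub_add_cancel hi']
      rw [h3]
      field_simp
    rw [h2, h1, mul_zero]
  have hGc : ∀ j ≤ D, G.coeff j = tw K (F.coeff (D - j)) * X ^ (D - j) := by
    intro j hj
    rw [hG, finsetSum_coeff, Finset.sum_eq_single (D - j)]
    · rw [coeff_C_mul, coeff_X_pow, if_pos (by omega), mul_one]
    · intro i hi hne
      have := Finset.mem_range.mp hi
      rw [coeff_C_mul, coeff_X_pow, if_neg (by omega), mul_zero]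
    · intro h3
      exact absurd (Finset.mem_range.mpr (by omega)) h3
  have hGdeg : G.natDegree ≤ D := by
    rw [hG]
    apply natDegree_sum_le_of_forall_le
    intro i hi
    refine (natDegree_C_mul_X_pow_le _ _).trans (Nat.sub_le _ _)
  have hH : C (tw K (F.coeff 0)) * F - C (F.coeff D) * G = 0 := by
    apply hmin
    · intro u v hu hv
      have e1 := hFR u v hu hv
      have e2 := hGR u v hu hv
      have e3 := (ev u v (Y u v)).map_sub (C (tw K (F.coeff 0)) * F) (C (F.coeff D) * G)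
      rw [e3, RingHom.map_mul, RingHom.map_mul, e1, e2]
      ring
    · have hle : (C (tw K (F.coeff 0)) * F - C (F.coeff D) * G).natDegree ≤ D :=
        (natDegree_sub_le _ _).trans (max_le (natDegree_C_mul_le _ _)
          ((natDegree_C_mul_le _ _).trans hGdeg))
      refine lt_of_le_of_ne hle ?_
      intro heq
      have h3 : (C (tw K (F.coeff 0)) * F - C (F.coeff D) * G).coeff D = 0 := by
        rw [coeff_sub, coeff_C_mul, coeff_C_mul, hGc D le_rfl, Nat.sub_self, pow_zero]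
        ring
      have h4 : (C (tw K (F.coeff 0)) * F - C (F.coeff D) * G) = 0 := by
        rw [← leadingCoeff_eq_zero, leadingCoeff, heq, h3]
      rw [h4, natDegree_zero] at heq
      omega
  have h5 := congrArg (fun p => coeff p 0) hH
  simp only [coeff_sub, coeff_C_mul, coeff_zero] at h5
  rw [hGc 0 (Nat.zero_le _), Nat.sub_zero] at h5
  have hlead : F.coeff D ≠ 0 := by
    have := leadingCoeff_ne_zero.mpr hF
    exact this
  apply no_rational (F.coeff 0) (F.coeff D) hg0 hlead D hD1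
  intro u v hu
  have h6 := congrArg (evalEval u v) h5
  rw [evalEval_sub, evalEval_mul, evalEval_mul, evalEval_mul, evalEval_pow, evalEval_X,
    evalEval_zero, evalEval_tw (hK 0 (Finset.mem_range.mpr (by omega))) hu,
    evalEval_tw (hK D (Finset.mem_range.mpr (by omega))) hu] at h6
  apply mul_left_cancel₀ (pow_ne_zero K hu)
  linear_combination h6

/-- `y^N P(u/y, y, v/y)` -/
def FP (N : ℕ) (P : MvPolynomial (Fin 3) ℝ) : ℝ[X][X][X] :=
  ∑ s ∈ P.support, C (C (C (P.coeff s) * X ^ (s 0)) * X ^ (s 2)) * X ^ (N + s 1 - s 0 - s 2)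

theorem ev_FP {N : ℕ} {P : MvPolynomial (Fin 3) ℝ} (hN : ∀ s ∈ P.support, s 0 + s 2 ≤ N)
    (u v : ℝ) {y : ℝ} (hy : y ≠ 0) :
    ev u v y (FP N P) = y ^ N * MvPolynomial.eval ![u / y, y, v / y] P := by
  rw [FP, map_sum, MvPolynomial.eval_eq', Finset.mul_sum]
  apply Finset.sum_congr rfl
  intro s hs
  have h1 := hN s hs
  rw [map_mul, map_pow, ev_C, ev_X, evalEval_mul, evalEval_pow, evalEval_C, evalEval_X, eval_mul,
    eval_pow, eval_C, eval_X, Fin.prod_univ_three]
  simp only [Matrix.cons_val]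
  obtain ⟨r, rfl⟩ : ∃ r, N = r + s 0 + s 2 := ⟨N - s 0 - s 2, by omega⟩
  have h2 : r + s 0 + s 2 + s 1 - s 0 - s 2 = r + s 1 := by omega
  rw [h2, div_pow, div_pow, pow_add, pow_add, pow_add]
  field_simp

theorem no_rel_13 (Y : ℝ → ℝ → ℝ) (hYpos : ∀ u v, 0 < u → 0 < v → 0 < Y u v)
    (hY : ∀ u v, 0 < u → 0 < v → Y u v * Y v (1 + v / u) = v)
    (P : MvPolynomial (Fin 3) ℝ) (hP : P ≠ 0)
    (h : ∀ u v, 0 < u → 0 < v → MvPolynomial.eval ![u / Y u v, Y u v, v / Y u v] P = 0) :
    False := by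
  obtain ⟨N, hN⟩ : ∃ N, ∀ s ∈ P.support, s 0 + s 2 ≤ N :=
    ⟨P.support.sup (fun s => s 0 + s 2), fun s hs => Finset.le_sup (f := fun s => s 0 + s 2) hs⟩
  apply no_rel hYpos hY
  refine ⟨FP N P, ?_, ?_⟩
  · intro h0
    apply hP
    apply MvPolynomial.funext_set (fun _ => Set.Ioi (0 : ℝ)) (fun _ => Set.Ioi_infinite 0)
    intro x hx
    have hx' : ∀ i, 0 < x i := fun i => hx i (Set.mem_univ i)
    have h1 := ev_FP hN (x 0 * x 1) (x 2 * x 1) (hx' 1).ne'
    rw [h0, map_zero, mul_div_cancel_right₀ _ (hx' 1).ne', mul_div_cancel_right₀ _ (hx' 1).ne'] at h1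
    have h2 := (mul_eq_zero.mp h1.symm).resolve_left (pow_ne_zero _ (hx' 1).ne')
    have h3 : ![x 0, x 1, x 2] = x := by
      funext i
      fin_cases i <;> rfl
    rw [h3] at h2
    rw [h2, map_zero]
  · intro u v hu hv
    rw [ev_FP hN u v (hYpos u v hu hv).ne', h u v hu hv, mul_zero]

end

end Pool.Agent.Lib_helper14.RB

end
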