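import Pool.Agent.Lib_helper65.RB.Mean

/-!
# No rational solution of `R(u, v) R(v, 1 + v/u) = v^D`
-/

noncomputable section

namespace Pool.Agent.Lib_helper14.RB

open Polynomial

section basic

variable {k : Type*} [Field k]

/-- substitution of polynomials -/
def sub2 {S : Type*} [CommRing S] [Algebra k S] (f g : S) : k[X][X] →+* S :=
  eval₂RingHom (aeval f : k[X] →ₐ[k] S).toRingHom g

variable {S : Type*} [CommRing S] [Algebra k S]

@[simp] theorem sub2_C (f g : S) (a : k[X]) : sub2 f g (C a) = aeval f a := by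
  simp [sub2]

@[simp] theorem sub2_X (f g : S) : sub2 (k := k) f g X = g := by
  simp [sub2]

theorem hom_ext {T : Type*} [CommRing T] {φ ψ : k[X][X] →+* T}
    (h1 : ∀ a : k, φ (C (C a)) = ψ (C (C a))) (h2 : φ (C X) = ψ (C X)) (h3 : φ X = ψ X) :
    φ = ψ := by
  apply Polynomial.ringHom_ext
  · intro a
    have : (φ.comp C) = (ψ.comp C) := by
      apply Polynomial.ringHom_ext
      · exact h1
      · exact h2
    exact congrArg (fun g => g a) this
  · exact h3

theorem eval_sub2 (f g : k[X]) (w : k) (P : k[X][X]) :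
    (sub2 f g P).eval w = evalEval (f.eval w) (g.eval w) P := by
  have h : (evalRingHom w).comp (sub2 f g) = evalEvalRingHom (f.eval w) (g.eval w) := by
    apply hom_ext
    · intro a; simp
    · simp
    · simp
  exact congrArg (fun F => F P) h

theorem evalEval_sub2 (f g : k[X][X]) (x y : k) (P : k[X][X]) :
    evalEval x y (sub2 f g P) = evalEval (evalEval x y f) (evalEval x y g) P := by
  have h : (evalEvalRingHom x y).comp (sub2 f g) =
      evalEvalRingHom (evalEval x y f) (evalEval x y g) := by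
    apply hom_ext
    · intro a
      have : (algebraMap k k[X][X]) a = C (C a) := rfl
      simp [this]
    · simp
    · simp
  exact congrArg (fun F => F P) h

theorem sub2_comp (f g φ : k[X]) (P : k[X][X]) :
    (sub2 f g P).comp φ = sub2 (f.comp φ) (g.comp φ) P := by
  have h : (compRingHom φ).comp (sub2 (k := k) f g) = sub2 (f.comp φ) (g.comp φ) := by
    apply hom_ext
    · intro a; simp
    · simp
    · simp
  exact congrArg (fun F => F P) h

theorem sub2_sub2 (f g : k[X]) (a b P : k[X][X]) :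
    sub2 f g (sub2 a b P) = sub2 (sub2 f g a) (sub2 f g b) P := by
  have h : (sub2 (k := k) f g).comp (sub2 (k := k) a b) = sub2 (sub2 f g a) (sub2 f g b) := by
    apply hom_ext
    · intro c
      have : (algebraMap k k[X][X]) c = C (C c) := rfl
      simp [this]
    · simp
    · simp
  exact congrArg (fun F => F P) h

theorem sub2_dvd (f g g' : k[X]) (P : k[X][X]) : g - g' ∣ sub2 f g P - sub2 f g' P := by
  have h : ∀ g : k[X], sub2 f g P = (P.map (aeval f : k[X] →ₐ[k] k[X]).toRingHom).eval g := by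
    intro g
    rw [eval_map]
    rfl
  rw [h, h]
  exact sub_dvd_eval_sub _ _ _

end basic

theorem poly_zero {p : ℝ[X]} (h : ∀ t, t ≠ 0 → p.eval t = 0) : p = 0 := by
  have h1 : p * X = 0 := by
    apply Polynomial.funext
    intro t
    rw [eval_mul, eval_X, eval_zero]
    by_cases ht : t = 0
    · rw [ht, mul_zero]
    · rw [h t ht, zero_mul]
  exact (mul_eq_zero.mp h1).resolve_right X_ne_zero

theorem biv_zero {P : ℝ[X][X]} (h : ∀ a b : ℝ, a ≠ 0 → b ≠ 1 → evalEval a b P = 0) : P = 0 := by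
  have h1 : ∀ b : ℝ, b ≠ 1 → P.eval (C b) = 0 := fun b hb => poly_zero (fun a ha => h a b ha hb)
  apply Polynomial.eq_zero_of_infinite_isRoot
  have h2 : (C '' {b : ℝ | b ≠ 1} : Set ℝ[X]).Infinite := by
    apply Set.Infinite.image (C_injective.injOn)
    exact (Set.finite_singleton (1 : ℝ)).infinite_compl
  apply h2.mono
  rintro _ ⟨b, hb, rfl⟩
  exact h1 b hb

/-- The formal invariant curve. -/
theorem exists_phi (N : ℕ) : ∃ φ r : ℝ[X], φ = -X + X ^ 2 + X ^ 3 * r ∧
    X ^ N ∣ X * φ.comp φ - X - φ := by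
  have base : ∀ n ≤ 4, ∃ φ r : ℝ[X], φ = -X + X ^ 2 + X ^ 3 * r ∧
      X ^ n ∣ X * φ.comp φ - X - φ := by
    intro n hn
    refine ⟨-X + X ^ 2, 0, by ring, (pow_dvd_pow X hn).trans ⟨-2 + X, ?_⟩⟩
    simp only [add_comp, neg_comp, X_comp, pow_comp]
    ring
  induction N with
  | zero => exact base 0 (by norm_num)
  | succ n ih =>
    by_cases hn : n + 1 ≤ 4
    · exact base _ hn
    · obtain ⟨φ, r, hφ, e, he⟩ := ih
      obtain ⟨m, rfl⟩ : ∃ m, n = m + 3 := ⟨n - 3, by omega⟩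
      have hX : X ∣ e - C (e.coeff 0) := by
        rw [X_dvd_iff]; simp
      obtain ⟨e', he'⟩ := hX
      set c := e.coeff 0 with hc
      refine ⟨φ + C c * X ^ (m + 3), r + C c * X ^ m, by rw [hφ]; ring, ?_⟩
      -- composition
      have h1 : X ^ (m + 3) ∣ φ.comp (φ + C c * X ^ (m + 3)) - φ.comp φ := by
        have h2 : (φ + C c * X ^ (m + 3)) - φ ∣ φ.comp (φ + C c * X ^ (m + 3)) - φ.comp φ := by
          rw [comp, comp, eval₂_eq_eval_map, eval₂_eq_eval_map]
          exact sub_dvd_eval_sub _ _ _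
        refine dvd_trans ⟨C c, by ring⟩ h2
      obtain ⟨g1, hg1⟩ := h1
      have h2 : X ∣ φ + C c * X ^ (m + 3) := ⟨-1 + X + X ^ 2 * r + C c * X ^ (m + 2), by
        rw [hφ]; ring⟩
      obtain ⟨g2, hg2⟩ := h2
      have h3 : (φ + C c * X ^ (m + 3)).comp (φ + C c * X ^ (m + 3)) =
          φ.comp φ + X ^ (m + 3) * (g1 + C c * g2 ^ (m + 3)) := by
        rw [add_comp, mul_comp, C_comp, pow_comp, X_comp]
        conv_lhs => rw [hg2, mul_pow]
        rw [hg2] at hg1
        linear_combination hg1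
      refine ⟨e' + (g1 + C c * g2 ^ (m + 3)), ?_⟩
      rw [h3]
      linear_combination he + X ^ (m + 3) * he'

/-- clearing denominators -/
theorem clear {K : Type*} [Field K] [Algebra ℝ[X] K] [IsFractionRing ℝ[X] K] (f : K[X]) :
    ∃ (c : ℝ[X]) (g : ℝ[X][X]), c ≠ 0 ∧ g.map (algebraMap ℝ[X] K) = C (algebraMap ℝ[X] K c) * f := by
  obtain ⟨b, hb, h⟩ := IsLocalization.integerNormalization_spec (nonZeroDivisors ℝ[X]) f
  refine ⟨b, IsLocalization.integerNormalization (nonZeroDivisors ℝ[X]) f,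
    nonZeroDivisors.ne_zero hb, ?_⟩
  rw [h, ← smul_eq_C_mul, algebraMap_smul]

theorem bezout (A B : ℝ[X][X]) (hB : B ≠ 0) : ∃ (A₁ B₁ U V : ℝ[X][X]) (h : ℝ[X]), h ≠ 0 ∧
    A * B₁ = B * A₁ ∧ U * A₁ + V * B₁ = C h := by
  let K := FractionRing ℝ[X]
  let ι := algebraMap ℝ[X] K
  have hι : Function.Injective ι := IsFractionRing.injective _ _
  have hm : Function.Injective (Polynomial.map ι : ℝ[X][X] → K[X]) := Polynomial.map_injective _ hι
  classical
  set a := A.map ι with ha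
  set b := B.map ι with hb
  have hb0 : b ≠ 0 := by
    intro h
    apply hB
    apply hm
    rw [← hb, h, Polynomial.map_zero]
  have hst := EuclideanDomain.gcd_eq_gcd_ab a b
  set s := EuclideanDomain.gcdA a b
  set t := EuclideanDomain.gcdB a b
  set g := EuclideanDomain.gcd a b with hg
  have hg0 : g ≠ 0 := fun h => hb0 (by
    have := EuclideanDomain.gcd_dvd_right a b
    rw [← hg, h, zero_dvd_iff] at this
    exact this)
  obtain ⟨a', ha'⟩ := EuclideanDomain.gcd_dvd_left a b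
  obtain ⟨b', hb'⟩ := EuclideanDomain.gcd_dvd_right a b
  rw [← hg] at ha' hb'
  have h1 : s * a' + t * b' = 1 := by
    apply mul_left_cancel₀ hg0
    rw [mul_one]
    conv_rhs => rw [hst, ha', hb']
    ring
  obtain ⟨ca, A', hca, hA'⟩ := clear (K := K) a'
  obtain ⟨cb, B', hcb, hB'⟩ := clear (K := K) b'
  obtain ⟨cs, S', hcs, hS'⟩ := clear (K := K) s
  obtain ⟨ct, T', hct, hT'⟩ := clear (K := K) t
  refine ⟨C cb * A', C ca * B', C ct * S', C cs * T', ca * cb * cs * ct,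
    mul_ne_zero (mul_ne_zero (mul_ne_zero hca hcb) hcs) hct, ?_, ?_⟩
  · apply hm
    simp only [Polynomial.map_mul, Polynomial.map_C]
    rw [← ha, ← hb, ha', hb', hA', hB']
    ring
  · apply hm
    simp only [Polynomial.map_mul, Polynomial.map_C, Polynomial.map_add]
    rw [hA', hB', hS', hT']
    simp only [map_mul]
    linear_combination (C (ι ca) * C (ι cb) * C (ι cs) * C (ι ct)) * h1

theorem order_eq {m n N : ℕ} {L R : ℝ[X]} (h : X ^ N ∣ X ^ m * L - X ^ n * R) (hL : L.eval 0 ≠ 0)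
    (hmN : m < N) : n ≤ m := by
  by_contra hmn
  push Not at hmn
  apply hL
  have h1 : X ^ (m + 1) ∣ X ^ m * L := by
    have h2 : X ^ (m + 1) ∣ X ^ m * L - X ^ n * R := (pow_dvd_pow X hmN).trans h
    have h3 : X ^ (m + 1) ∣ X ^ n * R := (pow_dvd_pow X hmn).trans (Dvd.intro _ rfl)
    have := dvd_add h2 h3
    rwa [sub_add_cancel] at this
  rw [pow_succ] at h1
  have h2 := (mul_dvd_mul_iff_left (pow_ne_zero m (X_ne_zero (R := ℝ)))).mp h1
  obtain ⟨g, rfl⟩ := h2
  simp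

theorem decomp {α : ℝ[X]} (h : α ≠ 0) : ∃ (p : ℕ) (α₀ : ℝ[X]), α = X ^ p * α₀ ∧
    α₀.eval 0 ≠ 0 := by
  obtain ⟨q, hq, h2⟩ := exists_eq_pow_rootMultiplicity_mul_and_not_dvd α h 0
  refine ⟨_, q, by simpa using hq, ?_⟩
  rw [C_0, sub_zero, X_dvd_iff, coeff_zero_eq_eval_zero] at h2
  exact h2

theorem deriv_key {χ φ γ : ℝ[X]} (h0 : χ.eval 0 = 1) (h1 : (derivative χ).eval 0 = -1)
    (h2 : φ.eval 0 = 0) (h3 : (derivative φ).eval 0 = -1) (ε : ℝ) (s : ℕ) :
    (derivative (C ε * χ ^ s * (γ * γ.comp φ))).eval 0 =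
      -s * (C ε * χ ^ s * (γ * γ.comp φ)).eval 0 := by
  simp only [derivative_mul, derivative_C, derivative_pow, derivative_comp, eval_mul, eval_add,
    eval_pow, eval_comp, eval_C, eval_natCast, h0, h1, h2, h3, zero_mul, zero_add, map_natCast,
    one_pow, mul_one]
  ring

theorem no_rational (A B : ℝ[X][X]) (hA : A ≠ 0) (hB : B ≠ 0) (D : ℕ) (hD : 1 ≤ D)
    (h : ∀ u v : ℝ, u ≠ 0 → evalEval u v A * evalEval v (1 + v / u) A =
      v ^ D * (evalEval u v B * evalEval v (1 + v / u) B)) : False := by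
  -- the parametrization `(u, u y) ↦ (u y, 1 + y)`
  let σ : ℝ[X][X] →+* ℝ[X][X] := sub2 (k := ℝ) (C X) (C X * X)
  let τ : ℝ[X][X] →+* ℝ[X][X] := sub2 (k := ℝ) (C X * X) (1 + X)
  have eσ : ∀ (P : ℝ[X][X]) (u y : ℝ), evalEval u y (σ P) = evalEval u (u * y) P := by
    intro P u y
    have := evalEval_sub2 (C X : ℝ[X][X]) (C X * X) u y P
    rw [this, evalEval_mul, evalEval_C, evalEval_X, eval_X]
  have eτ : ∀ (P : ℝ[X][X]) (u y : ℝ), evalEval u y (τ P) = evalEval (u * y) (1 + y) P := by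
    intro P u y
    have := evalEval_sub2 (C X * X : ℝ[X][X]) (1 + X) u y P
    rw [this, evalEval_mul, evalEval_add, evalEval_C, evalEval_X, evalEval_one, eval_X]
  have hσ : ∀ P : ℝ[X][X], P ≠ 0 → σ P ≠ 0 := by
    intro P hP h0
    apply hP
    apply biv_zero
    intro a b ha _
    have := eσ P a (b / a)
    rw [h0, evalEval_zero, mul_div_cancel₀ _ ha] at this
    exact this.symm
  have hτ : ∀ P : ℝ[X][X], P ≠ 0 → τ P ≠ 0 := by
    intro P hP h0
    apply hP
    apply biv_zero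
    intro a b _ hb
    have hb' : b - 1 ≠ 0 := sub_ne_zero.mpr hb
    have := eτ P (a / (b - 1)) (b - 1)
    rw [h0, evalEval_zero, div_mul_cancel₀ _ hb', add_sub_cancel] at this
    exact this.symm
  have hid : σ A * τ A = (C X * X) ^ D * (σ B * τ B) := by
    rw [← sub_eq_zero]
    apply biv_zero
    intro u y hu _
    have h1 := h u (u * y) hu
    rw [mul_div_cancel_left₀ _ hu] at h1
    simp only [evalEval_sub, evalEval_mul, evalEval_pow, evalEval_C, evalEval_X, eval_X, eσ, eτ]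
    linear_combination h1
  -- coprime representation
  obtain ⟨A₁, B₁, U, V, h₀, hh₀, hAB, hUV⟩ := bezout A B hB
  have hid1 : σ A₁ * τ A₁ = (C X * X) ^ D * (σ B₁ * τ B₁) := by
    have e1 : σ A * σ B₁ = σ B * σ A₁ := by rw [← map_mul, hAB, map_mul]
    have e2 : τ A * τ B₁ = τ B * τ A₁ := by rw [← map_mul, hAB, map_mul]
    have h3 : σ B * τ B ≠ 0 := mul_ne_zero (hσ B hB) (hτ B hB)
    apply mul_left_cancel₀ h3
    linear_combination (σ B₁ * τ B₁) * hid - (τ A * τ B₁) * e1 - (σ B * σ A₁) * e2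
  -- the curve
  set H := h₀.natDegree with hH
  have hHX : ¬ X ^ (H + 1) ∣ h₀ := by
    intro h4
    have := natDegree_le_of_dvd h4 hh₀
    rw [natDegree_X_pow] at this
    omega
  set N := 2 * H + D + 3 with hN
  obtain ⟨φ, r, hφ, hφN⟩ := exists_phi (N + 1)
  set χ : ℝ[X] := 1 - X - X ^ 2 * r with hχ
  have hφχ : φ = X * (-χ) := by rw [hφ, hχ]; ring
  set ψ : ℝ[X] := 1 - χ with hψ
  have hψφ : X ^ N ∣ φ.comp φ - ψ := by
    have h4 : X * φ.comp φ - X - φ = X * (φ.comp φ - ψ) := by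
      rw [hψ]; conv_lhs => rw [hφχ]
      rw [hφχ]; ring
    rw [h4, pow_succ'] at hφN
    exact (mul_dvd_mul_iff_left X_ne_zero).mp hφN
  set α := sub2 (X : ℝ[X]) φ A₁ with hα
  set β := sub2 (X : ℝ[X]) φ B₁ with hβ
  have hs : ∀ P : ℝ[X][X], sub2 (X : ℝ[X]) (-χ) (σ P) = sub2 (X : ℝ[X]) φ P := by
    intro P
    have := sub2_sub2 (X : ℝ[X]) (-χ) (C X) (C X * X) P
    rw [this, map_mul, sub2_C, sub2_X, aeval_X, ← hφχ]
  have ht : ∀ P : ℝ[X][X], sub2 (X : ℝ[X]) (-χ) (τ P) = sub2 φ ψ P := by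
    intro P
    have := sub2_sub2 (X : ℝ[X]) (-χ) (C X * X) (1 + X) P
    rw [this, map_mul, sub2_C, sub2_X, aeval_X, ← hφχ, map_add, map_one, sub2_X, hψ,
      sub_eq_add_neg]
  have hid2 : α * sub2 φ ψ A₁ = φ ^ D * (β * sub2 φ ψ B₁) := by
    have h4 := congrArg (sub2 (X : ℝ[X]) (-χ)) hid1
    simp only [map_mul, map_pow, hs, ht, sub2_C, sub2_X, aeval_X] at h4
    rw [← hφχ] at h4
    exact h4
  have hcomp : ∀ P : ℝ[X][X], X ^ N ∣ (sub2 (X : ℝ[X]) φ P).comp φ - sub2 φ ψ P := by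
    intro P
    rw [sub2_comp, X_comp]
    exact hψφ.trans (sub2_dvd _ _ _ _)
  have hmain : X ^ N ∣ α * α.comp φ - φ ^ D * (β * β.comp φ) := by
    obtain ⟨g1, hg1⟩ := hcomp A₁
    obtain ⟨g2, hg2⟩ := hcomp B₁
    rw [← hα] at hg1
    rw [← hβ] at hg2
    refine ⟨α * g1 - φ ^ D * β * g2, ?_⟩
    linear_combination α * hg1 - φ ^ D * β * hg2 + hid2
  have hbez : sub2 (X : ℝ[X]) φ U * α + sub2 (X : ℝ[X]) φ V * β = h₀ := by
    rw [hα, hβ, ← map_mul, ← map_mul, ← map_add, hUV, sub2_C, aeval_X_left_apply]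
  -- values at `0`
  have c0 : χ.eval 0 = 1 := by rw [hχ]; simp
  have c1 : (derivative χ).eval 0 = -1 := by
    rw [hχ]; simp
  have f0 : φ.eval 0 = 0 := by rw [hφ]; simp
  have f1 : (derivative φ).eval 0 = -1 := by
    rw [hφ]; simp
  have key : ∀ (γ : ℝ[X]) (p : ℕ) (γ₀ : ℝ[X]) (e : ℕ), γ = X ^ p * γ₀ →
      φ ^ e * (γ * γ.comp φ) =
        X ^ (e + 2 * p) * (C ((-1) ^ (e + p)) * χ ^ (e + p) * (γ₀ * γ₀.comp φ)) := by
    intro γ p γ₀ e hγ
    rw [hγ, mul_comp, pow_comp, X_comp]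
    have e1 : φ ^ e * (X ^ p * γ₀ * (φ ^ p * γ₀.comp φ)) =
        X ^ p * φ ^ (e + p) * (γ₀ * γ₀.comp φ) := by ring
    rw [e1]
    generalize γ₀ * γ₀.comp φ = G
    have e2 : (C ((-1) ^ (e + p)) : ℝ[X]) = (-1) ^ (e + p) := by simp
    rw [hφχ, mul_pow, neg_pow, e2]
    ring
  have key0 : ∀ (γ₀ : ℝ[X]) (e : ℕ), γ₀.eval 0 ≠ 0 →
      (C ((-1) ^ e) * χ ^ e * (γ₀ * γ₀.comp φ)).eval 0 ≠ 0 := by
    intro γ₀ e hγ
    simp only [eval_mul, eval_pow, eval_C, eval_comp, c0, f0, one_pow, mul_one]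
    exact mul_ne_zero (pow_ne_zero _ (by norm_num)) (mul_ne_zero hγ hγ)
  have hα0 : α ≠ 0 := by
    intro h4
    rw [h4] at hmain hbez
    have hβ0 : β ≠ 0 := by
      intro h5
      rw [h5] at hbez
      apply hh₀
      rw [← hbez]; ring
    obtain ⟨q, β₀, hβq, hβ₀⟩ := decomp hβ0
    have hq : q ≤ H := by
      by_contra hq
      push Not at hq
      apply hHX
      rw [← hbez, hβq]
      refine (pow_dvd_pow X (show H + 1 ≤ q from hq)).trans ⟨sub2 X φ V * β₀, by ring⟩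
    have h5 := key β q β₀ D hβq
    rw [h5] at hmain
    have h6 := order_eq (n := N) (m := D + 2 * q) (N := N) (R := 0)
      (L := C ((-1) ^ (D + q)) * χ ^ (D + q) * (β₀ * β₀.comp φ)) (by
        rw [mul_zero, sub_zero]
        have := dvd_neg.mpr hmain
        refine this.trans (dvd_of_eq ?_)
        ring) (key0 β₀ _ hβ₀) (by omega)
    omega
  obtain ⟨p, α₀, hαp, hα₀⟩ := decomp hα0
  have h4 := key α p α₀ 0 hαp
  rw [pow_zero, one_mul, Nat.zero_add, Nat.zero_add] at h4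
  rw [h4] at hmain
  have hβ0 : β ≠ 0 := by
    intro h5
    rw [h5] at hmain hbez
    have hp : p ≤ H := by
      by_contra hp
      push Not at hp
      apply hHX
      rw [← hbez, hαp]
      refine (pow_dvd_pow X (show H + 1 ≤ p from hp)).trans ⟨sub2 X φ U * α₀, by ring⟩
    have h6 := order_eq (n := N) (m := 2 * p) (N := N) (R := 0)
      (L := C ((-1) ^ p) * χ ^ p * (α₀ * α₀.comp φ)) (by
        refine hmain.trans (dvd_of_eq ?_)
        ring) (key0 α₀ _ hα₀) (by omega)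
    omega
  obtain ⟨q, β₀, hβq, hβ₀⟩ := decomp hβ0
  rw [key β q β₀ D hβq] at hmain
  have hmin : p ≤ H ∨ q ≤ H := by
    by_contra h5
    push Not at h5
    apply hHX
    rw [← hbez, hβq, hαp]
    refine dvd_add ?_ ?_
    · exact (pow_dvd_pow X (show H + 1 ≤ p from h5.1)).trans ⟨sub2 X φ U * α₀, by ring⟩
    · exact (pow_dvd_pow X (show H + 1 ≤ q from h5.2)).trans ⟨sub2 X φ V * β₀, by ring⟩
  have hmain' := dvd_neg.mpr hmain
  rw [neg_sub] at hmain'
  have o1 : 2 * p < N → D + 2 * q ≤ 2 * p := order_eq hmain (key0 α₀ _ hα₀)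
  have o2 : D + 2 * q < N → 2 * p ≤ D + 2 * q := order_eq hmain' (key0 β₀ _ hβ₀)
  have hpq : 2 * p = D + 2 * q := by
    rcases hmin with h5 | h5
    · have := o1 (by omega)
      have := o2 (by omega)
      omega
    · have := o2 (by omega)
      have := o1 (by omega)
      omega
  have hlt : 2 * p + 2 ≤ N := by
    rcases hmin with h5 | h5 <;> omega
  rw [← hpq, ← mul_sub] at hmain
  have h5 : X ^ (2 * p + 2) ∣ X ^ (2 * p) * (C ((-1) ^ p) * χ ^ p * (α₀ * α₀.comp φ) -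
      C ((-1) ^ (D + q)) * χ ^ (D + q) * (β₀ * β₀.comp φ)) := (pow_dvd_pow X hlt).trans hmain
  rw [pow_add] at h5
  obtain ⟨g, hg⟩ := (mul_dvd_mul_iff_left (pow_ne_zero (2 * p) (X_ne_zero (R := ℝ)))).mp h5
  have d1 := deriv_key (γ := α₀) c0 c1 f0 f1 ((-1) ^ p) p
  have d2 := deriv_key (γ := β₀) c0 c1 f0 f1 ((-1) ^ (D + q)) (D + q)
  have n1 := key0 α₀ p hα₀
  generalize (C ((-1) ^ p) * χ ^ p * (α₀ * α₀.comp φ)) = L at *
  generalize (C ((-1) ^ (D + q)) * χ ^ (D + q) * (β₀ * β₀.comp φ)) = R at *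
  have v0 : L.eval 0 = R.eval 0 := by
    have := congrArg (eval 0) hg
    simp only [eval_sub, eval_mul, eval_pow, eval_X] at this
    linear_combination this
  have v1 : (derivative L).eval 0 = (derivative R).eval 0 := by
    have := congrArg (fun f => eval 0 (derivative f)) hg
    simp only [derivative_sub, derivative_mul, derivative_X_pow, eval_sub, eval_add, eval_mul,
      eval_pow, eval_X, eval_C] at this
    norm_num at this
    linear_combination this
  rw [d1, d2, ← v0] at v1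
  have v2 : ((p : ℝ) - ((D + q : ℕ) : ℝ)) * L.eval 0 = 0 := by linear_combination -v1
  have v3 := (mul_eq_zero.mp v2).resolve_right n1
  have v4 : (p : ℝ) = ((D + q : ℕ) : ℝ) := by linear_combination v3
  have v5 : p = D + q := by exact_mod_cast v4
  omega

end Pool.Agent.Lib_helper14.RB

end
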